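import Mathlib
import Pool.Agent.H744R2.KZ.Props
import Pool.Agent.H85R2.Kad4.Polar
import Pool.Agent.H849R2.Kad4.F4
import Pool.Agent.H241R2.Kad4.Half

open scoped ComplexOrder InnerProductSpace ComplexConjugate Topology
open Finset Filter

noncomputable section

namespace H744R2.KZ

open H759R2.Kad

universe u

theorem prove_L_half (h1 : L_cc.{u}) : L_half.{u} := by
  intro H _ _ _ M z hz hNA
  obtain ⟨⟨hzs, hzz⟩, hzM, hzc⟩ := hz
  let P : Type u := {v : H →L[ℂ] H // v ∈ M ∧ IsPI v ∧ v * v = 0 ∧ z * v = v}
  let r : P → P → Prop := fun x y => Ext x.1 y.1
  obtain ⟨⟨v, hvM, hv, hvv, hzv⟩, hmax⟩ : ∃ m : P, ∀ a, r m a → r a m := by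
    apply exists_maximal_of_chains_bounded
    · intro c hc
      rcases c.eq_empty_or_nonempty with rfl | hne
      · exact ⟨⟨0, zero_mem M, by simp [IsPI], by simp, by simp⟩, by simp⟩
      · obtain ⟨V, hVM, hV, hVC, hVz⟩ := prove5_chain H M (Subtype.val '' c) (hne.image _)
          (by rintro _ ⟨x, _, rfl⟩; exact ⟨x.2.1, x.2.2.1⟩)
          (by
            rintro _ ⟨x, hx, rfl⟩ _ ⟨y, hy, rfl⟩
            by_cases hxy : x = y
            · subst hxy
              left
              have := x.2.2.1
              unfold IsPI at this
              unfold H759R2.Kad.Ext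
              rw [← mul_assoc]
              exact this
            · exact hc hx hy hxy)
        have hz : ∀ x ∈ c, ∀ y ∈ c, (x.1 : H →L[ℂ] H) * y.1 = 0 := by
          intro x hx y hy
          by_cases hxy : x = y
          · subst hxy
            exact x.2.2.2.1
          · rcases hc hx hy hxy with h | h
            · -- y extends x
              have h' : Ext x.1 y.1 := h
              have hp := HF.ext_proj x.2.2.1 y.2.2.1 h'
              have hp' : (star x.1 * x.1) * (star y.1 * y.1) = star x.1 * x.1 := by
                have := congrArg star hp
                simpa [mul_assoc] using this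
              unfold H759R2.Kad.Ext at h'
              calc x.1 * y.1 = (y.1 * (star x.1 * x.1)) * y.1 := by rw [h']
                _ = y.1 * ((star x.1 * x.1) * (star y.1 * y.1)) * y.1 := by
                    rw [hp']
                _ = y.1 * ((star x.1 * x.1) * (star y.1)) * (y.1 * y.1) := by noncomm_ring
                _ = 0 := by rw [y.2.2.2.1, mul_zero]
            · -- x extends y
              have h' : Ext y.1 x.1 := h
              unfold H759R2.Kad.Ext at h'
              calc x.1 * y.1 = x.1 * (x.1 * (star y.1 * y.1)) := by rw [h']
                _ = (x.1 * x.1) * (star y.1 * y.1) := by noncomm_ring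
                _ = 0 := by rw [x.2.2.2.1, zero_mul]
        have hxV : ∀ x ∈ c, (x.1 : H →L[ℂ] H) * V = 0 := by
          intro x hx
          have := hVz x.1 1 (by
            rintro _ ⟨y, hy, rfl⟩
            rw [hz x hx y hy, zero_mul])
          simpa using this
        have hVV : V * V = 0 := by
          have := hVz 1 V (by
            rintro _ ⟨y, hy, rfl⟩
            rw [one_mul, hxV y hy])
          simpa using this
        have hzV : z * V = V := by
          have := hVz (z - 1) 1 (by
            rintro _ ⟨y, hy, rfl⟩
            rw [mul_one, sub_mul, one_mul, y.2.2.2.2, sub_self])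
          rw [mul_one, sub_mul, one_mul] at this
          exact sub_eq_zero.1 this
        refine ⟨⟨V, hVM, hV, hVV, hzV⟩, fun a ha => hVC _ ⟨a, ha, rfl⟩⟩
    · intro a b c hab hbc
      exact HF.ext_trans a.2.2.1 b.2.2.1 hab hbc
  have hsM : star v ∈ M := star_mem hvM
  set q : H →L[ℂ] H := z - star v * v - v * star v with hq
  have hqM : q ∈ M := sub_mem (sub_mem hzM (mul_mem hsM hvM)) (mul_mem hvM hsM)
  unfold IsPI at hv
  have hv' : star v * v * star v = star v := by
    have := congrArg star hv
    simpa [mul_assoc] using this
  have hss : star v * star v = 0 := by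
    have := congrArg star hvv
    simpa using this
  have hvz : v * z = v := by rw [← hzc v hvM, hzv]
  have hzsv : z * star v = star v := by
    have := congrArg star hvz
    simpa [hzs] using this
  have hsvz : star v * z = star v := by
    have := congrArg star hzv
    simpa [hzs] using this
  have hvq : v * q = 0 := by
    calc v * q = v * z - v * star v * v - (v * v) * star v := by rw [hq]; noncomm_ring
      _ = 0 := by rw [hv, hvv, hvz]; simp
  have hqv : q * v = 0 := by
    calc q * v = z * v - star v * (v * v) - v * star v * v := by rw [hq]; noncomm_ring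
      _ = 0 := by rw [hv, hvv, hzv]; simp
  have hsq : star q = q := by
    rw [hq]; simp [hzs]
  have hqsv : q * star v = 0 := by
    have := congrArg star hvq
    simpa [hsq] using this
  have hsvq : star v * q = 0 := by
    have := congrArg star hqv
    simpa [hsq] using this
  have hzq : z * q = q := by
    calc z * q = z * z - (z * star v) * v - (z * v) * star v := by rw [hq]; noncomm_ring
      _ = q := by rw [hzz, hzsv, hzv]
  have hqz : q * z = q := by
    have := congrArg star hzq
    simpa [hsq, hzs] using this
  have hqq : q * q = q := by
    calc q * q = q * z - (q * star v) * v - (q * v) * star v := by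
          conv_lhs => rw [hq]
          rw [← hq]
          conv_lhs =>
            arg 2
            rw [hq]
          noncomm_ring
      _ = q := by rw [hqsv, hqv, hqz]; simp
  by_cases hq0 : q = 0
  · refine ⟨v, hvM, hvv, ?_⟩
    have : z - star v * v - v * star v = 0 := by rw [← hq]; exact hq0
    rw [sub_sub, sub_eq_zero] at this
    exact this.symm
  exfalso
  apply hq0
  apply hNA q hqM hzq
  refine ⟨hqM, ⟨hsq, hqq⟩, ?_⟩
  intro s hsM' hss hqs
  obtain ⟨hs1, hs2⟩ := hss
  have hsq2 : s * q = s := by
    have := congrArg star hqs
    simpa [hsq, hs1] using this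
  set t : H →L[ℂ] H := q - s with ht
  have ht1 : star t = t := by rw [ht, star_sub, hsq, hs1]
  have ht2 : t * t = t := by
    calc t * t = q * q - q * s - s * q + s * s := by rw [ht]; noncomm_ring
      _ = t := by rw [hqq, hqs, hsq2, hs2, ht]; noncomm_ring
  have htM : t ∈ M := sub_mem hqM hsM'
  have hst : s * t = 0 := by
    calc s * t = s * q - s * s := by rw [ht]; noncomm_ring
      _ = 0 := by rw [hsq2, hs2, sub_self]
  have hvs : v * s = 0 := by rw [← hqs, ← mul_assoc, hvq, zero_mul]
  have hvt : v * t = 0 := by rw [ht, mul_sub, hvq, hvs, sub_zero]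
  have hsv : s * v = 0 := by rw [← hsq2, mul_assoc, hqv, mul_zero]
  have htv : t * v = 0 := by rw [ht, sub_mul, hqv, hsv, sub_zero]
  have hzs' : z * s = s := by rw [← hqs, ← mul_assoc, hzq]
  have hzt : z * t = t := by rw [ht, mul_sub, hzq, hzs']
  have hkill : ∀ a ∈ M, t * a * s = 0 := by
    intro a ha
    by_contra hne
    obtain ⟨w, hwM, hw, hwx, hw1, hw2⟩ := prove5_polar H M (t * a * s)
      (mul_mem (mul_mem htM ha) hsM')
    have htw : t * w = w := by
      have := hw1 (1 - t) (by
        calc (1 - t) * (t * a * s) = (t - t * t) * a * s := by noncomm_ring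
          _ = 0 := by rw [ht2]; simp)
      rw [sub_mul, one_mul, sub_eq_zero] at this
      exact this.symm
    have hws : w * s = w := by
      have := hw2 (1 - s) (by
        calc (t * a * s) * (1 - s) = t * a * (s - s * s) := by noncomm_ring
          _ = 0 := by rw [hs2]; simp)
      rw [mul_sub, mul_one, sub_eq_zero] at this
      exact this.symm
    have hwp : w * star w * w = w := hw
    have hw0 : w ≠ 0 := by
      rintro rfl
      apply hne
      rw [← hwx]
      simp
    have hzw : z * w = w := by rw [← htw, ← mul_assoc, hzt]
    have hvw : v * w = 0 := by rw [← htw, ← mul_assoc, hvt, zero_mul]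
    have hwv : w * v = 0 := by rw [← hws, mul_assoc, hsv, mul_zero]
    have hww : w * w = 0 := by
      calc w * w = (w * s) * (t * w) := by rw [hws, htw]
        _ = w * (s * t) * w := by noncomm_ring
        _ = 0 := by rw [hst]; simp
    have hswv : star w * v = 0 := by
      have : star w = star w * t := by
        have := congrArg star htw
        simpa [ht1] using this.symm
      rw [this, mul_assoc, htv, mul_zero]
    have hsvw : star v * w = 0 := by
      have := congrArg star hswv
      simpa using this
    have hvsw : v * star w = 0 := by
      have : star w = s * star w := by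
        have := congrArg star hws
        simpa [hs1] using this.symm
      rw [this, ← mul_assoc, hvs, zero_mul]
    have hwsv : w * star v = 0 := by
      have := congrArg star hvsw
      simpa using this
    let m' : P := ⟨v + w, add_mem hvM hwM, by
      unfold IsPI
      calc (v + w) * star (v + w) * (v + w)
          = v * star v * v + v * (star v * w) + (v * star w) * (v + w) + (w * star v) * (v + w)
            + w * (star w * v) + w * star w * w := by
            simp only [star_add]; noncomm_ring
        _ = v + w := by rw [hv, hsvw, hvsw, hwsv, hswv, hwp]; simp, by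
      calc (v + w) * (v + w) = v * v + v * w + w * v + w * w := by noncomm_ring
        _ = 0 := by rw [hvv, hvw, hwv, hww]; simp, by rw [mul_add, hzv, hzw]⟩
    have hm := hmax m' (by
      change (v + w) * (star v * v) = v
      calc (v + w) * (star v * v) = v * star v * v + (w * star v) * v := by noncomm_ring
        _ = v := by rw [hv, hwsv]; simp)
    have hm' : v * (star (v + w) * (v + w)) = v + w := hm
    have : v * (star (v + w) * (v + w)) = v := by
      calc v * (star (v + w) * (v + w))
          = v * star v * v + v * (star v * w) + (v * star w) * (v + w) := by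
            simp only [star_add]; noncomm_ring
        _ = v := by rw [hv, hsvw, hvsw]; simp
    rw [this] at hm'
    apply hw0
    have h5 : v + w = v + 0 := by rw [← hm', add_zero]
    exact add_left_cancel h5
  obtain ⟨c, hc, hcs, hcx⟩ := h1 H M s hsM' ⟨hs1, hs2⟩
  refine ⟨c, hc, ?_⟩
  have h6 : t * c = 0 := hcx t hkill
  have h7 : q * c = s * c := by
    rw [ht, sub_mul, sub_eq_zero] at h6
    exact h6
  rw [hc.2.2 q hqM, h7, ← hc.2.2 s hsM', hcs]

end H744R2.KZ
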